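import Mathlib

set_option autoImplicit false

namespace Pool.Agent.Results.MP_ee0f4e_nt.Disproof

open Finset

/-- `A n k = C(n,k) C(n+k,k)` as a rational number. -/
def A (n k : ℕ) : ℚ := (n.choose k : ℚ) * ((n + k).choose k : ℚ)

/-- `c` is the sequence of coefficients for the exponents `r, s`: for every `n`,
`∑_{k ≤ n} C(n,k)^r C(n+k,k)^r = ∑_{k ≤ n} C(n,k)^s C(n+k,k)^s c_k`. -/
def IsCoeff (r s : ℕ) (c : ℕ → ℚ) : Prop :=
  ∀ n : ℕ, ∑ k ∈ range (n + 1), A n k ^ r = ∑ k ∈ range (n + 1), A n k ^ s * c k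

/-- The coefficients, determined recursively from the triangular system. -/
def coeff (r s : ℕ) : ℕ → ℚ
  | n => (∑ k ∈ range (n + 1), A n k ^ r - ∑ k : Fin n, A n k ^ s * coeff r s k) / A n n ^ s
decreasing_by exact k.2

theorem A_self_ne (n : ℕ) : A n n ≠ 0 := by
  unfold A
  have h1 : 0 < n.choose n := Nat.choose_pos le_rfl
  have h2 : 0 < (n + n).choose n := Nat.choose_pos (by omega)
  positivity

theorem isCoeff_iff (r s : ℕ) (c : ℕ → ℚ) : IsCoeff r s c ↔ c = coeff r s := by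
  have key : ∀ (d : ℕ → ℚ) (n : ℕ),
      (∑ k ∈ range (n + 1), A n k ^ r = ∑ k ∈ range (n + 1), A n k ^ s * d k) ↔
      d n = (∑ k ∈ range (n + 1), A n k ^ r - ∑ k : Fin n, A n k ^ s * d k) / A n n ^ s := by
    intro d n
    have hne : A n n ^ s ≠ 0 := pow_ne_zero _ (A_self_ne n)
    rw [eq_div_iff hne, Finset.sum_range_succ (fun k => A n k ^ s * d k),
      ← Fin.sum_univ_eq_sum_range (fun k => A n k ^ s * d k) n]
    constructor
    · intro h; rw [h]; ring
    · intro h; linarith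
  constructor
  · intro h
    funext n
    induction n using Nat.strong_induction_on with
    | _ n ih =>
      rw [(key c n).1 (h n), coeff]
      congr 2
      refine Finset.sum_congr rfl fun k _ => ?_
      rw [ih k k.2]
  · rintro rfl n
    rw [key]
    rw [coeff]

/-- The residues of `C(n,k) C(n+k,k)` modulo `729`, for `n, k < 18`. -/
def tab : List (List ℕ) :=
  [[1, 0, 0, 0, 0, 0, 0, 0, 0, 0, 0, 0, 0, 0, 0, 0, 0, 0],
   [1, 2, 0, 0, 0, 0, 0, 0, 0, 0, 0, 0, 0, 0, 0, 0, 0, 0],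
   [1, 6, 6, 0, 0, 0, 0, 0, 0, 0, 0, 0, 0, 0, 0, 0, 0, 0],
   [1, 12, 30, 20, 0, 0, 0, 0, 0, 0, 0, 0, 0, 0, 0, 0, 0, 0],
   [1, 20, 90, 140, 70, 0, 0, 0, 0, 0, 0, 0, 0, 0, 0, 0, 0, 0],
   [1, 30, 210, 560, 630, 252, 0, 0, 0, 0, 0, 0, 0, 0, 0, 0, 0, 0],
   [1, 42, 420, 222, 234, 585, 195, 0, 0, 0, 0, 0, 0, 0, 0, 0, 0, 0],
   [1, 56, 27, 555, 615, 594, 348, 516, 0, 0, 0, 0, 0, 0, 0, 0, 0, 0],
   [1, 72, 531, 492, 387, 630, 249, 450, 477, 0, 0, 0, 0, 0, 0, 0, 0, 0],
   [1, 90, 522, 255, 423, 18, 516, 684, 90, 506, 0, 0, 0, 0, 0, 0, 0, 0],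
   [1, 110, 54, 57, 258, 54, 606, 231, 81, 137, 319, 0, 0, 0, 0, 0, 0, 0],
   [1, 132, 645, 282, 657, 144, 165, 675, 27, 641, 138, 489, 0, 0, 0, 0, 0, 0],
   [1, 156, 174, 227, 585, 558, 495, 378, 135, 113, 60, 312, 295, 0, 0, 0, 0, 0],
   [1, 182, 171, 509, 214, 162, 198, 45, 567, 257, 703, 99, 85, 686, 0, 0, 0, 0],
   [1, 210, 714, 389, 531, 99, 495, 135, 621, 599, 573, 582, 376, 297, 459, 0, 0, 0],
   [1, 240, 429, 219, 387, 198, 183, 189, 270, 209, 678, 138, 468, 513, 189, 171, 0, 0],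
   [1, 272, 135, 264, 645, 378, 111, 402, 81, 434, 265, 162, 360, 342, 648, 198, 207, 0],
   [1, 306, 657, 273, 369, 693, 696, 90, 306, 317, 189, 270, 630, 378, 135, 252, 270, 675]]

/-- Table lookup. -/
def Bm (n k : ℕ) : ℕ := (tab.getD n []).getD k 0

/-- The first dual vector. -/
def lam0 (n : ℕ) : ℕ :=
  ([99, 243, 711, 651, 0, 726, 0, 0, 0, 657, 486, 720, 80, 0, 1, 0, 0, 0] : List ℕ).getD n 0

/-- The second dual vector. -/
def lam1 (n : ℕ) : ℕ :=
  ([633, 486, 177, 0, 0, 0, 165, 0, 726, 557, 243, 658, 0, 0, 0, 728, 0, 1] : List ℕ).getD n 0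

/-- Finite sums by recursion (for kernel evaluation). -/
def sumTo (f : ℕ → ℕ) : ℕ → ℕ
  | 0 => 0
  | n + 1 => sumTo f n + f n

theorem sumTo_eq (f : ℕ → ℕ) (n : ℕ) : sumTo f n = ∑ i ∈ range n, f i := by
  induction n with
  | zero => rfl
  | succ n ih => rw [Finset.sum_range_succ, sumTo, ih]

/-- The quantity tested modulo `729`. -/
def F (lam : ℕ → ℕ) (e : ℕ) : ℕ :=
  sumTo (fun n => lam n * (sumTo (fun k => Bm n k ^ e % 729) 18)) 18

/-- `C(n,k) C(n+k,k)` through factorials. -/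
def Bf (n k : ℕ) : ℕ := (n + k).factorial / (k.factorial * k.factorial * (n - k).factorial)

theorem B_eq {n k : ℕ} (h : k ≤ n) : n.choose k * (n + k).choose k = Bf n k := by
  unfold Bf
  have h1 := Nat.choose_mul_factorial_mul_factorial h
  have h2 := Nat.choose_mul_factorial_mul_factorial (show k ≤ n + k by omega)
  rw [Nat.add_sub_cancel] at h2
  have hpos : 0 < k.factorial * k.factorial * (n - k).factorial := by positivity
  rw [eq_comm, Nat.div_eq_iff_eq_mul_left hpos]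
  · rw [← h2, ← h1]; ring
  · refine ⟨n.choose k * (n + k).choose k, ?_⟩
    rw [← h2, ← h1]; ring

theorem tab_ok : ∀ n < 18, ∀ k < 18, k ≤ n → Bf n k % 729 = Bm n k := by
  decide +kernel

theorem tab_zero : ∀ n < 18, ∀ k < 18, n < k → Bm n k = 0 := by
  decide +kernel

theorem B_mod {n k : ℕ} (hn : n < 18) (hk : k < 18) :
    (n.choose k * (n + k).choose k) % 729 = Bm n k := by
  rcases le_or_gt k n with h | h
  · rw [B_eq h, tab_ok n hn k hk h]
  · rw [Nat.choose_eq_zero_of_lt h, tab_zero n hn k hk h]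
    simp

theorem dual0 : ∀ k < 18, sumTo (fun n => lam0 n * (Bm n k ^ 2)) 18 % 729 = 0 := by
  decide +kernel

theorem dual1 : ∀ k < 18, sumTo (fun n => lam1 n * (Bm n k ^ 2)) 18 % 729 = 0 := by
  decide +kernel

theorem check : ∀ e < 489, ¬ (F lam0 (3 + e) % 729 = 0 ∧ F lam1 (3 + e) % 729 = 0) := by
  decide +kernel

theorem period_base : ∀ b < 729, b ^ 492 % 729 = b ^ 6 % 729 := by
  decide +kernel

theorem Bm_lt {n k : ℕ} (hn : n < 18) (hk : k < 18) : Bm n k < 729 := by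
  rw [← B_mod hn hk]
  exact Nat.mod_lt _ (by norm_num)

theorem pow_period {b e : ℕ} (hb : b < 729) (he : 6 ≤ e) :
    b ^ (e + 486) % 729 = b ^ e % 729 := by
  obtain ⟨d, rfl⟩ : ∃ d, e = 6 + d := ⟨e - 6, by omega⟩
  have h1 : b ^ (6 + d + 486) = b ^ 492 * b ^ d := by
    rw [← pow_add]
    exact congrArg (fun x => b ^ x) (by omega)
  rw [h1, pow_add, Nat.mul_mod, period_base _ hb, ← Nat.mul_mod]

theorem F_period (lam : ℕ → ℕ) {e : ℕ} (he : 6 ≤ e) : F lam (e + 486) = F lam e := by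
  unfold F
  rw [sumTo_eq, sumTo_eq]
  refine Finset.sum_congr rfl fun n hn => ?_
  rw [sumTo_eq, sumTo_eq]
  refine congrArg (fun x => lam n * x) ?_
  refine Finset.sum_congr rfl fun k hk => ?_
  exact pow_period (Bm_lt (Finset.mem_range.1 hn) (Finset.mem_range.1 hk)) he

theorem check_all : ∀ r : ℕ, 3 ≤ r → ¬ (F lam0 r % 729 = 0 ∧ F lam1 r % 729 = 0) := by
  intro r
  induction r using Nat.strong_induction_on with
  | _ r ih =>
    intro hr
    rcases lt_or_ge r 492 with h | h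
    · have := check (r - 3) (by omega)
      rwa [show 3 + (r - 3) = r by omega] at this
    · have h1 := ih (r - 486) (by omega) (by omega)
      have h2 : r = (r - 486) + 486 := by omega
      rw [h2, F_period _ (by omega), F_period _ (by omega)]
      exact h1

/-- If the first coefficients are integers, the dual vectors give divisibilities. -/
theorem dual_dvd (lam : ℕ → ℕ)
    (hlam : ∀ k < 18, sumTo (fun n => lam n * (Bm n k ^ 2)) 18 % 729 = 0)
    {r : ℕ} (z : ℕ → ℤ)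
    (h : ∀ n < 18, ∑ k ∈ range 18, ((n.choose k * (n + k).choose k : ℕ) : ℤ) ^ r
      = ∑ k ∈ range 18, ((n.choose k * (n + k).choose k : ℕ) : ℤ) ^ 2 * z k) :
    F lam r % 729 = 0 := by
  have hmod : ∀ n < 18, ∀ k < 18, ∀ e : ℕ,
      ((n.choose k * (n + k).choose k : ℕ) : ℤ) ^ e ≡ ((Bm n k : ℕ) : ℤ) ^ e [ZMOD 729] := by
    intro n hn k hk e
    apply Int.ModEq.pow
    rw [← B_mod hn hk]
    push_cast
    exact (Int.mod_modEq _ _).symm
  have h1 : ∑ n ∈ range 18, (lam n : ℤ) *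
      ∑ k ∈ range 18, ((n.choose k * (n + k).choose k : ℕ) : ℤ) ^ r
      ≡ (F lam r : ℕ) [ZMOD 729] := by
    unfold F
    rw [sumTo_eq]
    push_cast
    refine Int.ModEq.sum fun n hn => ?_
    refine Int.ModEq.mul_left _ ?_
    rw [sumTo_eq]
    push_cast
    refine Int.ModEq.sum fun k hk => ?_
    have := hmod n (Finset.mem_range.1 hn) k (Finset.mem_range.1 hk) r
    push_cast at this
    exact this.trans (Int.mod_modEq _ _).symm
  have h2 : ∑ n ∈ range 18, (lam n : ℤ) *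
      ∑ k ∈ range 18, ((n.choose k * (n + k).choose k : ℕ) : ℤ) ^ r
      ≡ 0 [ZMOD 729] := by
    have e1 : ∑ n ∈ range 18, (lam n : ℤ) *
        ∑ k ∈ range 18, ((n.choose k * (n + k).choose k : ℕ) : ℤ) ^ r
        = ∑ k ∈ range 18, z k * ∑ n ∈ range 18, (lam n : ℤ) *
          ((n.choose k * (n + k).choose k : ℕ) : ℤ) ^ 2 := by
      have e2 : ∀ n ∈ range 18, (lam n : ℤ) *
          ∑ k ∈ range 18, ((n.choose k * (n + k).choose k : ℕ) : ℤ) ^ r
          = ∑ k ∈ range 18, z k * ((lam n : ℤ) *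
            ((n.choose k * (n + k).choose k : ℕ) : ℤ) ^ 2) := by
        intro n hn
        rw [h n (Finset.mem_range.1 hn), Finset.mul_sum]
        refine Finset.sum_congr rfl fun k _ => ?_
        ring
      rw [Finset.sum_congr rfl e2, Finset.sum_comm]
      refine Finset.sum_congr rfl fun k _ => ?_
      rw [Finset.mul_sum]
    rw [e1]
    have e3 : ∀ k ∈ range 18, z k * ∑ n ∈ range 18, (lam n : ℤ) *
          ((n.choose k * (n + k).choose k : ℕ) : ℤ) ^ 2 ≡ z k * 0 [ZMOD 729] := by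
      intro k hk
      refine Int.ModEq.mul_left _ ?_
      have e4 : ∑ n ∈ range 18, (lam n : ℤ) *
          ((n.choose k * (n + k).choose k : ℕ) : ℤ) ^ 2
          ≡ ∑ n ∈ range 18, (lam n : ℤ) * ((Bm n k : ℕ) : ℤ) ^ 2 [ZMOD 729] := by
        refine Int.ModEq.sum fun n hn => ?_
        exact Int.ModEq.mul_left _ (hmod n (Finset.mem_range.1 hn) k (Finset.mem_range.1 hk) 2)
      refine e4.trans ?_
      have e5 := hlam k (Finset.mem_range.1 hk)
      rw [sumTo_eq] at e5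
      have e6 : (729 : ℤ) ∣ ((∑ n ∈ range 18, lam n * Bm n k ^ 2 : ℕ) : ℤ) := by
        exact_mod_cast Nat.dvd_of_mod_eq_zero e5
      push_cast at e6
      exact (Int.modEq_zero_iff_dvd.2 e6)
    refine (Int.ModEq.sum e3).trans ?_
    simp
  have h3 : ((F lam r : ℕ) : ℤ) ≡ 0 [ZMOD 729] := h1.symm.trans h2
  have h4 : (729 : ℤ) ∣ ((F lam r : ℕ) : ℤ) := Int.modEq_zero_iff_dvd.1 h3
  have h5 : 729 ∣ F lam r := by exact_mod_cast h4
  exact Nat.mod_eq_zero_of_dvd h5

/-- For the exponent `s = 2` and `n = 17`, no `r > 2` works. -/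
theorem main {r : ℕ} (hr : 2 < r) : ¬ ∀ k ≤ 17, ∃ z : ℤ, coeff r 2 k = (z : ℚ) := by
  intro hcon
  have hIs : IsCoeff r 2 (coeff r 2) := (isCoeff_iff r 2 _).2 rfl
  have hex : ∀ k : ℕ, ∃ z : ℤ, k ≤ 17 → coeff r 2 k = (z : ℚ) := by
    intro k
    by_cases hk : k ≤ 17
    · obtain ⟨z, hz⟩ := hcon k hk
      exact ⟨z, fun _ => hz⟩
    · exact ⟨0, fun h => absurd h hk⟩
  choose z hz using hex
  have hsys : ∀ n < 18, ∑ k ∈ range 18, ((n.choose k * (n + k).choose k : ℕ) : ℤ) ^ r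
      = ∑ k ∈ range 18, ((n.choose k * (n + k).choose k : ℕ) : ℤ) ^ 2 * z k := by
    intro n hn
    have hsub : range (n + 1) ⊆ range 18 := Finset.range_subset_range.2 (by omega)
    have e1 : ∑ k ∈ range 18, ((n.choose k * (n + k).choose k : ℕ) : ℤ) ^ r
        = ∑ k ∈ range (n + 1), ((n.choose k * (n + k).choose k : ℕ) : ℤ) ^ r := by
      refine (Finset.sum_subset hsub fun k _ hk => ?_).symm
      rw [Finset.mem_range, not_lt] at hk
      rw [Nat.choose_eq_zero_of_lt (by omega), Nat.zero_mul, Nat.cast_zero,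
        zero_pow (by omega)]
    have e2 : ∑ k ∈ range 18, ((n.choose k * (n + k).choose k : ℕ) : ℤ) ^ 2 * z k
        = ∑ k ∈ range (n + 1), ((n.choose k * (n + k).choose k : ℕ) : ℤ) ^ 2 * z k := by
      refine (Finset.sum_subset hsub fun k _ hk => ?_).symm
      rw [Finset.mem_range, not_lt] at hk
      rw [Nat.choose_eq_zero_of_lt (by omega), Nat.zero_mul, Nat.cast_zero]
      simp
    rw [e1, e2]
    have h := hIs n
    have h2 : ((∑ k ∈ range (n + 1), ((n.choose k * (n + k).choose k : ℕ) : ℤ) ^ r : ℤ) : ℚ)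
        = ((∑ k ∈ range (n + 1),
          ((n.choose k * (n + k).choose k : ℕ) : ℤ) ^ 2 * z k : ℤ) : ℚ) := by
      push_cast
      unfold A at h
      rw [h]
      refine Finset.sum_congr rfl fun k hk => ?_
      rw [hz k (by have := Finset.mem_range.1 hk; omega)]
    exact_mod_cast h2
  exact check_all r hr ⟨dual_dvd lam0 dual0 z hsys, dual_dvd lam1 dual1 z hsys⟩

/-- The question has a negative answer: for `s = 2` and `n = 17` there is no `r > 2` for which
the coefficients `c_0^{(r,2)}, …, c_17^{(r,2)}` are all integers. -/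
theorem result :
    (∀ r s : ℕ, ∀ c : ℕ → ℚ, IsCoeff r s c ↔ c = coeff r s) ∧
    (∀ r : ℕ, 2 < r → ∃ k ≤ 17, ∀ z : ℤ, coeff r 2 k ≠ (z : ℚ)) ∧
    ¬ (∀ s : ℕ, 1 < s → ∀ n : ℕ, ∃ r : ℕ, s < r ∧
        ∀ k ≤ n, ∃ z : ℤ, coeff r s k = (z : ℚ)) := by
  refine ⟨isCoeff_iff, ?_, ?_⟩
  · intro r hr
    have := main hr
    push Not at this
    exact this
  · intro h
    obtain ⟨r, hr, hk⟩ := h 2 (by norm_num) 17
    exact main hr hk

end Pool.Agent.Results.MP_ee0f4e_nt.Disproof
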